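import Mathlib
import Pool.Agent.H.MP_5de00f_gt.B
set_option autoImplicit false
namespace Pool.Agent.Results.MP_5de00f_gt.No
open Set Filter Topology
open scoped ContDiff

noncomputable def jet1 (f : ℝ → ℝ) (x : ℝ) : ℝ × ℝ × ℝ := (x, f x, deriv f x)

noncomputable def jet2 (f : ℝ → ℝ) (x : ℝ) : ℝ × ℝ × ℝ × ℝ :=
  (x, f x, deriv f x, deriv (deriv f) x)

def IsSub {E : Type} [NormedAddCommGroup E] [NormedSpace ℝ E] (r d : ℕ) (A : Set E) : Prop :=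
  ∀ a ∈ A, ∃ (ψ : OpenPartialHomeomorph E E) (S : Submodule ℝ E), Module.finrank ℝ S = d ∧
    a ∈ ψ.source ∧ ContDiffOn ℝ r ψ ψ.source ∧ ContDiffOn ℝ r ψ.symm ψ.target ∧
    ∀ x ∈ ψ.source, (x ∈ A ↔ ψ x ∈ S)

def tang {E : Type} [NormedAddCommGroup E] [NormedSpace ℝ E] (A : Set E) (b : E) :
    Submodule ℝ E :=
  Submodule.span ℝ {v | ∃ γ : ℝ → E, γ 0 = b ∧ (∀ᶠ t in 𝓝 0, γ t ∈ A) ∧ HasDerivAt γ v 0}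

def tilde (A : Set (ℝ × ℝ × ℝ)) : Set (ℝ × ℝ × ℝ × ℝ) :=
  {z | ∃ (f : ℝ → ℝ) (x : ℝ), ContDiff ℝ ∞ f ∧ jet2 f x = z ∧ jet1 f x ∈ A ∧
    LinearMap.range (fderiv ℝ (jet1 f) x).toLinearMap ⊔ tang A (jet1 f x) ≠ ⊤}

theorem result : ∃ A : Set (ℝ × ℝ × ℝ), IsSub 2 2 A ∧
    ∀ 𝓜 : Set (Set (ℝ × ℝ × ℝ × ℝ)), 𝓜.Countable → (∀ M ∈ 𝓜, ∃ d, IsSub 1 d M) →
      ⋃₀ 𝓜 ≠ tilde A :=
  Pool.Agent.H.MP_5de00f_gt.main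

end Pool.Agent.Results.MP_5de00f_gt.No
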